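import Mathlib
import Pool.Agent.Y865.RF.Stm

/-! Kempe changes at a vertex of degree five. -/

set_option autoImplicit false

namespace Pool.Agent.Y708.RF

open Pool.Agent.Y865.RF Pool.Agent.H207R2.BL

section

variable {V : Type} (G : SimpleGraph V) (v : V) (a : Fin 5 → {x : V // x ≠ v})

/-- the graph without `v` -/
abbrev HH : SimpleGraph {x : V // x ≠ v} := G.comap Subtype.val

/-- the vertices of two colours -/
def SS (g : {x : V // x ≠ v} → Fin 5) (i j : Fin 5) : Set {x : V // x ≠ v} :=
  {x | g x = g (a i) ∨ g x = g (a j)}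

/-- the Kempe component -/
def KK (g : {x : V // x ≠ v} → Fin 5) (i j : Fin 5) (x : {x : V // x ≠ v}) : Prop :=
  Cn (HH G v) (SS v a g i j) (a i) x

lemma KK_self (g : {x : V // x ≠ v} → Fin 5) (i j : Fin 5) : KK G v a g i j (a i) := by
  refine ⟨SimpleGraph.Walk.nil, fun z hz => ?_⟩
  rw [SimpleGraph.Walk.support_nil, List.mem_singleton] at hz
  subst hz
  exact Or.inl rfl

lemma KK_mem (g : {x : V // x ≠ v} → Fin 5) (i j : Fin 5) (x : {x : V // x ≠ v})
    (hx : KK G v a g i j x) : x ∈ SS v a g i j := by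
  obtain ⟨w, hw⟩ := hx
  exact hw x w.end_mem_support

lemma KK_step (g : {x : V // x ≠ v} → Fin 5) (i j : Fin 5) (x y : {x : V // x ≠ v})
    (hx : KK G v a g i j x) (hxy : (HH G v).Adj x y) (hy : y ∈ SS v a g i j) :
    KK G v a g i j y := by
  obtain ⟨w, hw⟩ := hx
  refine ⟨w.concat hxy, fun z hz => ?_⟩
  rw [SimpleGraph.Walk.support_concat, List.mem_append, List.mem_singleton] at hz
  rcases hz with hz | hz
  · exact hw z hz
  · subst hz
    exact hy

/-- the Kempe change -/
def R2 (g : {x : V // x ≠ v} → Fin 5) (y : V → Fin 5) : Prop :=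
  ∃ i j : Fin 5, i < j ∧ Function.Injective (fun k => g (a k)) ∧ ¬ KK G v a g i j (a j) ∧
    y v = g (a i) ∧
    ∀ x : {x : V // x ≠ v}, (KK G v a g i j x → y x.1 = Equiv.swap (g (a i)) (g (a j)) (g x)) ∧
      (¬ KK G v a g i j x → y x.1 = g x)

/-- values at the neighbours -/
lemma vals (g : {x : V // x ≠ v} → Fin 5) (y : V → Fin 5) (i j : Fin 5) (_hij : i < j)
    (hinj : Function.Injective (fun k => g (a k))) (hn : ¬ KK G v a g i j (a j))
    (hy : ∀ x : {x : V // x ≠ v},
      (KK G v a g i j x → y x.1 = Equiv.swap (g (a i)) (g (a j)) (g x)) ∧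
      (¬ KK G v a g i j x → y x.1 = g x)) :
    y (a i).1 = g (a j) ∧ y (a j).1 = g (a j) ∧ ∀ k, k ≠ i → k ≠ j → y (a k).1 = g (a k) := by
  refine ⟨?_, (hy _).2 hn, fun k hki hkj => (hy _).2 fun hk => ?_⟩
  · rw [(hy _).1 (KK_self G v a g i j), Equiv.swap_apply_left]
  · rcases KK_mem G v a g i j _ hk with h | h
    · exact hki (hinj h)
    · exact hkj (hinj h)

/-- the set of vertices of two colours, after the Kempe change -/
lemma set_eq (g : {x : V // x ≠ v} → Fin 5) (y : V → Fin 5) (i j : Fin 5)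
    (hy : ∀ x : {x : V // x ≠ v},
      (KK G v a g i j x → y x.1 = Equiv.swap (g (a i)) (g (a j)) (g x)) ∧
      (¬ KK G v a g i j x → y x.1 = g x)) :
    SS v a g i j = {x | y x.1 = g (a i) ∨ y x.1 = g (a j)} := by
  ext x
  by_cases hx : KK G v a g i j x
  · have h1 := KK_mem G v a g i j x hx
    constructor
    · intro _
      rw [Set.mem_ofPred_eq, (hy x).1 hx]
      rcases h1 with h | h
      · right
        rw [h, Equiv.swap_apply_left]
      · left
        rw [h, Equiv.swap_apply_right]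
    · intro _
      exact h1
  · rw [Set.mem_ofPred_eq, (hy x).2 hx]
    rfl

lemma R2_inj (g h : {x : V // x ≠ v} → Fin 5) (y : V → Fin 5) (hg : R2 G v a g y)
    (hh : R2 G v a h y) : g = h := by
  obtain ⟨i, j, hij, hinj, hn, hv, hy⟩ := hg
  obtain ⟨i', j', hij', hinj', hn', hv', hy'⟩ := hh
  obtain ⟨v1, v2, v3⟩ := vals G v a g y i j hij hinj hn hy
  obtain ⟨w1, w2, w3⟩ := vals G v a h y i' j' hij' hinj' hn' hy'
  -- a pair with the same value is `{i, j}`
  have key : ∀ k l : Fin 5, k < l → y (a k).1 = y (a l).1 → k = i ∧ l = j := by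
    intro k l hkl he
    have hne : k ≠ l := ne_of_lt hkl
    -- a function which retracts
    have hval : ∀ m : Fin 5, m ≠ i → y (a m).1 = g (a m) := by
      intro m hm
      by_cases hmj : m = j
      · rw [hmj]
        exact v2
      · exact v3 m hm hmj
    by_cases hk : k = i
    · have hl : l ≠ i := fun h => hne (hk.trans h.symm)
      rw [hk, v1, hval l hl] at he
      exact ⟨hk, (hinj he).symm⟩
    · by_cases hl : l = i
      · rw [hl, v1, hval k hk] at he
        have h3 : k = j := hinj he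
        rw [h3, hl] at hkl
        exact absurd hkl (lt_asymm hij)
      · rw [hval k hk, hval l hl] at he
        exact absurd (hinj he) hne
  have e1 : y (a i').1 = y (a j').1 := by rw [w1, w2]
  obtain ⟨e2, e3⟩ := key i' j' hij' e1
  subst e2
  subst e3
  have c1 : g (a i') = h (a i') := hv.symm.trans hv'
  have c2 : g (a j') = h (a j') := v2.symm.trans w2
  have hS : SS v a g i' j' = SS v a h i' j' := by
    rw [set_eq G v a g y i' j' hy, set_eq G v a h y i' j' hy', c1, c2]
  have hK : ∀ x, KK G v a g i' j' x ↔ KK G v a h i' j' x := by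
    intro x
    unfold KK
    rw [hS]
  funext x
  by_cases hx : KK G v a g i' j' x
  · have h1 := (hy x).1 hx
    have h2 := (hy' x).1 ((hK x).1 hx)
    rw [h1, ← c1, ← c2] at h2
    exact (Equiv.injective _ h2)
  · have h1 := (hy x).2 hx
    have h2 := (hy' x).2 (fun h => hx ((hK x).2 h))
    exact h1.symm.trans h2

lemma R2_proper (ha : ∀ u, G.Adj v u → ∃ k, (a k).1 = u)
    (g : {x : V // x ≠ v} → Fin 5) (y : V → Fin 5) (hp : Proper (HH G v) g)
    (hg : R2 G v a g y) : Proper G y := by
  obtain ⟨i, j, hij, hinj, hn, hv, hy⟩ := hg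
  obtain ⟨v1, v2, v3⟩ := vals G v a g y i j hij hinj hn hy
  have hne : i ≠ j := ne_of_lt hij
  -- the colour of `v` is new
  have hnew : ∀ k, y (a k).1 ≠ y v := by
    intro k
    rw [hv]
    by_cases hki : k = i
    · rw [hki, v1]
      exact fun h => hne (hinj h).symm
    · by_cases hkj : k = j
      · rw [hkj, v2]
        exact fun h => hne (hinj h).symm
      · rw [v3 k hki hkj]
        exact fun h => hki (hinj h)
  -- one endpoint in the component
  have hone : ∀ p q : {x : V // x ≠ v}, (HH G v).Adj p q → KK G v a g i j p →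
      ¬ KK G v a g i j q → y p.1 ≠ y q.1 := by
    intro p q hpq h1 h2 he
    have h3 : q ∉ SS v a g i j := fun h => h2 (KK_step G v a g i j p q h1 hpq h)
    have h4 := KK_mem G v a g i j p h1
    rw [(hy p).1 h1, (hy q).2 h2] at he
    apply h3
    rcases h4 with h | h
    · rw [h, Equiv.swap_apply_left] at he
      exact Or.inr he.symm
    · rw [h, Equiv.swap_apply_right] at he
      exact Or.inl he.symm
  intro p q hpq
  by_cases h1 : p = v
  · subst h1
    obtain ⟨k, hk⟩ := ha q hpq
    rw [← hk]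
    exact (hnew k).symm
  · by_cases h2 : q = v
    · subst h2
      obtain ⟨k, hk⟩ := ha p hpq.symm
      rw [← hk]
      exact hnew k
    · have hadj : (HH G v).Adj ⟨p, h1⟩ ⟨q, h2⟩ := hpq
      by_cases k1 : KK G v a g i j ⟨p, h1⟩
      · by_cases k2 : KK G v a g i j ⟨q, h2⟩
        · have e1 := (hy ⟨p, h1⟩).1 k1
          have e2 := (hy ⟨q, h2⟩).1 k2
          intro he
          have h3 : y (⟨p, h1⟩ : {x : V // x ≠ v}).1 = y (⟨q, h2⟩ : {x : V // x ≠ v}).1 := he
          rw [e1, e2] at h3
          exact hp _ _ hadj (Equiv.injective _ h3)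
        · exact hone _ _ hadj k1 k2
      · by_cases k2 : KK G v a g i j ⟨q, h2⟩
        · exact (hone _ _ hadj.symm k2 k1).symm
        · have e1 := (hy ⟨p, h1⟩).2 k1
          have e2 := (hy ⟨q, h2⟩).2 k2
          intro he
          have h3 : y (⟨p, h1⟩ : {x : V // x ≠ v}).1 = y (⟨q, h2⟩ : {x : V // x ≠ v}).1 := he
          rw [e1, e2] at h3
          exact hp _ _ hadj h3

lemma R2_exists (g : {x : V // x ≠ v} → Fin 5) (i j : Fin 5) (hij : i < j)
    (hinj : Function.Injective (fun k => g (a k))) (hn : ¬ KK G v a g i j (a j)) :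
    ∃ y, R2 G v a g y := by
  classical
  refine ⟨fun u => if hu : u = v then g (a i) else
    if KK G v a g i j ⟨u, hu⟩ then Equiv.swap (g (a i)) (g (a j)) (g ⟨u, hu⟩) else g ⟨u, hu⟩,
    i, j, hij, hinj, hn, dif_pos rfl, fun x => ⟨fun hx => ?_, fun hx => ?_⟩⟩
  · show (if hu : x.1 = v then g (a i) else
      if KK G v a g i j ⟨x.1, hu⟩ then Equiv.swap (g (a i)) (g (a j)) (g ⟨x.1, hu⟩)
      else g ⟨x.1, hu⟩) = _
    rw [dif_neg x.2, if_pos hx]
  · show (if hu : x.1 = v then g (a i) else
      if KK G v a g i j ⟨x.1, hu⟩ then Equiv.swap (g (a i)) (g (a j)) (g ⟨x.1, hu⟩)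
      else g ⟨x.1, hu⟩) = _
    rw [dif_neg x.2, if_neg hx]

lemma exists_pair (ha : ∀ k, G.Adj v (a k).1) (g : {x : V // x ≠ v} → Fin 5)
    (hinj : Function.Injective (fun k => g (a k))) (hW : ¬ WK V G) :
    ∃ i j : Fin 5, i < j ∧ ¬ KK G v a g i j (a j) := by
  classical
  by_contra hc
  push Not at hc
  apply hW
  refine ⟨fun p => if p = 0 then v else (a (p - 1)).1,
    fun p q => if p = 0 then {v, (a (q - 1)).1} else Subtype.val '' SS v a g (p - 1) (q - 1),
    ?_, ?_⟩
  · intro p q hpq
    have hq : q ≠ 0 := by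
      rintro rfl
      exact absurd hpq (Fin.not_lt_zero p)
    simp only [if_neg hq]
    by_cases hp : p = 0
    · simp only [if_pos hp]
      refine ⟨SimpleGraph.Walk.cons (ha (q - 1)) SimpleGraph.Walk.nil, fun z hz => ?_⟩
      simpa using hz
    · simp only [if_neg hp]
      have h1 : ∀ p q : Fin 5, p ≠ 0 → p < q → p - 1 < q - 1 := by decide
      obtain ⟨w, hw⟩ := hc (p - 1) (q - 1) (h1 p q hp hpq)
      refine ⟨w.map (⟨Subtype.val, fun {x y} h => h⟩ : HH G v →g G), fun z hz => ?_⟩
      rw [SimpleGraph.Walk.support_map, List.mem_map] at hz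
      obtain ⟨x, hx, rfl⟩ := hz
      exact ⟨x, hw x hx, rfl⟩
  · intro p q r s hpq hrs h1 h2 h3 h4
    have hsub : ∀ m n : Fin 5, m ≠ n → g (a (m - 1)) ≠ g (a (n - 1)) := by
      intro m n hmn h
      exact hmn (sub_left_injective (hinj h))
    -- one edge and a bichromatic set
    have hA : ∀ q r s : Fin 5, q ≠ r → q ≠ s →
        Disjoint ({v, (a (q - 1)).1} : Set V) (Subtype.val '' SS v a g (r - 1) (s - 1)) := by
      intro q r s hqr hqs
      rw [Set.disjoint_left]
      rintro z (hz | hz) ⟨x, hx, hxz⟩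
      · exact x.2 (hxz.trans hz)
      · have hz' : z = (a (q - 1)).1 := hz
        have hx' : x = a (q - 1) := Subtype.ext (hxz.trans hz')
        subst hx'
        rcases hx with h | h
        · exact hsub q r hqr h
        · exact hsub q s hqs h
    by_cases hp : p = 0
    · have hr : r ≠ 0 := fun h => h1 (hp.trans h.symm)
      simp only [if_pos hp, if_neg hr]
      exact hA q r s h3 h4
    · by_cases hr : r = 0
      · simp only [if_pos hr, if_neg hp]
        exact (hA s p q (Ne.symm h2) (Ne.symm h4)).symm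
      · simp only [if_neg hr, if_neg hp]
        rw [Set.disjoint_left]
        rintro z ⟨x, hx, hxz⟩ ⟨x', hx', hxz'⟩
        have he : x = x' := Subtype.ext (hxz.trans hxz'.symm)
        subst he
        rcases hx with h | h <;> rcases hx' with h' | h'
        · exact hsub p r h1 (h.symm.trans h')
        · exact hsub p s h2 (h.symm.trans h')
        · exact hsub q r h3 (h.symm.trans h')
        · exact hsub q s h4 (h.symm.trans h')

end

theorem kempe : Pool.Agent.Y865.RF.S_KEMPE := by
  intro V _ G v hW hdeg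
  classical
  have hcard : Nat.card (G.neighborSet v) = 5 := hdeg
  have e : G.neighborSet v ≃ Fin 5 := Finite.equivFinOfCardEq hcard
  let a : Fin 5 → {x : V // x ≠ v} := fun k => ⟨(e.symm k).1, (e.symm k).2.ne'⟩
  have ha1 : ∀ k, G.Adj v (a k).1 := fun k => (e.symm k).2
  have ha2 : ∀ u, G.Adj v u → ∃ k, (a k).1 = u := by
    intro u hu
    refine ⟨e ⟨u, hu⟩, ?_⟩
    show ((e.symm (e ⟨u, hu⟩)).1 : V) = u
    rw [Equiv.symm_apply_apply]
  have hex : ∀ g : {g : {x : V // x ≠ v} → Fin 5 // Proper (G.comap Subtype.val) g},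
      ∃ p : Bool × {g : V → Fin 5 // Proper G g},
        (p.1 = true ∧ R2 G v a g.1 p.2.1) ∨
        (p.1 = false ∧ ∀ x : {x : V // x ≠ v}, p.2.1 x.1 = g.1 x) := by
    intro g
    by_cases hinj : Function.Injective (fun k => g.1 (a k))
    · obtain ⟨i, j, hij, hn⟩ := exists_pair G v a ha1 g.1 hinj hW
      obtain ⟨y, hy⟩ := R2_exists G v a g.1 i j hij hinj hn
      exact ⟨(true, ⟨y, R2_proper G v a ha2 g.1 y g.2 hy⟩), Or.inl ⟨rfl, hy⟩⟩
    · have hsurj : ¬ Function.Surjective (fun k => g.1 (a k)) := fun h =>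
        hinj (Finite.injective_iff_surjective.2 h)
      obtain ⟨c, hc⟩ : ∃ c, ∀ k, g.1 (a k) ≠ c := by
        by_contra hcon
        push Not at hcon
        exact hsurj hcon
      have hy : ∀ x : {x : V // x ≠ v},
          (fun u => if hu : u = v then c else g.1 ⟨u, hu⟩ : V → Fin 5) x.1 = g.1 x := by
        intro x
        exact dif_neg x.2
      have hyv : (fun u => if hu : u = v then c else g.1 ⟨u, hu⟩ : V → Fin 5) v = c := dif_pos rfl
      refine ⟨(false, ⟨fun u => if hu : u = v then c else g.1 ⟨u, hu⟩, ?_⟩), Or.inr ⟨rfl, hy⟩⟩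
      generalize (fun u => if hu : u = v then c else g.1 ⟨u, hu⟩ : V → Fin 5) = y at hy hyv
      intro p q hpq
      by_cases h1 : p = v
      · subst h1
        obtain ⟨k, hk⟩ := ha2 q hpq
        rw [hyv, ← hk, hy (a k)]
        exact (hc k).symm
      · by_cases h2 : q = v
        · subst h2
          obtain ⟨k, hk⟩ := ha2 p hpq.symm
          rw [hyv, ← hk, hy (a k)]
          exact hc k
        · have e1 := hy ⟨p, h1⟩
          have e2 := hy ⟨q, h2⟩
          have hadj : (G.comap (Subtype.val : {x : V // x ≠ v} → V)).Adj ⟨p, h1⟩ ⟨q, h2⟩ := hpq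
          intro he
          exact g.2 _ _ hadj (e1.symm.trans (he.trans e2))
  choose F hF using hex
  have hFinj : Function.Injective F := by
    intro g h he
    have h1 := hF g
    have h2 := hF h
    rw [← he] at h2
    apply Subtype.ext
    rcases h1 with ⟨b1, r1⟩ | ⟨b1, r1⟩ <;> rcases h2 with ⟨b2, r2⟩ | ⟨b2, r2⟩
    · exact R2_inj G v a g.1 h.1 _ r1 r2
    · rw [b1] at b2
      exact absurd b2 (by decide)
    · rw [b1] at b2
      exact absurd b2 (by decide)
    · funext x
      exact (r1 x).symm.trans (r2 x)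
  have h1 := Nat.card_le_card_of_injective F hFinj
  rw [Nat.card_prod] at h1
  simpa using h1

end Pool.Agent.Y708.RF
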